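import Mathlib

set_option autoImplicit false

namespace Pool.Agent.Results.MP_fa7d23_ag.NoMultiple

open MvPolynomial

universe u

section defs

variable {k : Type u} [Field k] {ι : Type}

/-- The maximal ideal `(x - p₀, y - p₁)` of the point `p` of the affine plane `𝔸² ⊆ ℙ²`. -/
noncomputable def pointIdeal (p : Fin 2 → k) : Ideal (MvPolynomial (Fin 2) k) :=
  Ideal.span {X 0 - C (p 0), X 1 - C (p 1)}

/-- `|eH - ∑ nᵢEᵢ| ≠ ∅` on the blow-up of `ℙ²` at the points `pᵢ ∈ 𝔸²`: there is a nonzero form of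
degree `e` (dehomogenised: a nonzero polynomial of degree `≤ e`) with multiplicity `≥ nᵢ` at `pᵢ`
(no condition at `pᵢ` when `nᵢ ≤ 0`). -/
def Effective (p : ι → Fin 2 → k) (e : ℤ) (n : ι → ℤ) : Prop :=
  ∃ F : MvPolynomial (Fin 2) k, F ≠ 0 ∧ (F.totalDegree : ℤ) ≤ e ∧
    ∀ i, F ∈ pointIdeal (p i) ^ (n i).toNat

/-- The intersection number `(eH - ∑ nᵢEᵢ) · (e'H - ∑ n'ᵢEᵢ) = e e' - ∑ nᵢn'ᵢ`. -/
def inter [Fintype ι] (e : ℤ) (n : ι → ℤ) (e' : ℤ) (n' : ι → ℤ) : ℤ :=
  e * e' - ∑ i, n i * n' i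

/-- The arithmetic genus `1 + (C² + K_X·C)/2` of `C = eH - ∑ nᵢEᵢ`, with `K_X = -3H + ∑ Eᵢ`. -/
def arithGenus [Fintype ι] (e : ℤ) (n : ι → ℤ) : ℚ :=
  1 + ((inter e n e n : ℤ) + (inter (-3) (fun _ => -1) e n : ℤ)) / 2

/-- `F` has multiplicity exactly `μ` at `q`. -/
def IsMult (F : MvPolynomial (Fin 2) k) (q : Fin 2 → k) (μ : ℕ) : Prop :=
  F ∈ pointIdeal q ^ μ ∧ F ∉ pointIdeal q ^ (μ + 1)

/-- `dH - ∑ mᵢEᵢ` is nef: its intersection numbers with the irreducible curves of the blow-up are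
`≥ 0`.  These curves are the `Eᵢ`, the line at infinity (which misses all `pᵢ`), and the proper
transforms `(deg F)H - ∑ mult_{pᵢ}(F)Eᵢ` of the affine irreducible curves `F = 0`. -/
def Nef [Fintype ι] (p : ι → Fin 2 → k) (d : ℤ) (m : ι → ℤ) : Prop :=
  (∀ i, 0 ≤ m i) ∧ 0 ≤ d ∧
    ∀ (F : MvPolynomial (Fin 2) k) (μ : ι → ℕ), Irreducible F → (∀ i, IsMult F (p i) (μ i)) →
      0 ≤ inter d m F.totalDegree (fun i => (μ i : ℤ))

/-- Condition (B) for `L = dH - ∑ mᵢEᵢ`: there is a curve (nonzero effective divisor)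
`C = eH - ∑ nᵢEᵢ` with `|L - C| ≠ ∅`, `pₐ(C) > 0` and `L·C = 0`. -/
def CondB [Fintype ι] (p : ι → Fin 2 → k) (d : ℤ) (m : ι → ℤ) : Prop :=
  ∃ (e : ℤ) (n : ι → ℤ), ¬ (e = 0 ∧ n = 0) ∧ Effective p e n ∧
    Effective p (d - e) (fun i => m i - n i) ∧ 0 < arithGenus e n ∧ inter d m e n = 0

/-- The restriction map `H⁰(ℙ², 𝒪(d)) → H⁰(Z, 𝒪_Z) = ∏ᵢ 𝒪/𝔪ᵢ^{mᵢ}` to the scheme `Z = ∑ mᵢpᵢ` of
fat points. -/
noncomputable def jets (p : ι → Fin 2 → k) (d : ℕ) (m : ι → ℕ) :
    restrictTotalDegree (Fin 2) k d →ₗ[k]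
      ((i : ι) → MvPolynomial (Fin 2) k ⧸ (pointIdeal (p i) ^ m i)) :=
  (LinearMap.pi (fun i => (Ideal.Quotient.mkₐ k (pointIdeal (p i) ^ m i)).toLinearMap)) ∘ₗ
    (restrictTotalDegree (Fin 2) k d).subtype

/-- `H¹(X, dH - ∑ mᵢEᵢ) = H¹(ℙ², 𝓘_Z(d))` for `d, mᵢ ≥ 0`, computed as the cokernel of
`H⁰(ℙ², 𝒪(d)) → H⁰(Z, 𝒪_Z)` (because `H¹(ℙ², 𝒪(d)) = 0`). -/
abbrev H1 (p : ι → Fin 2 → k) (d : ℕ) (m : ι → ℕ) : Type u :=
  ((i : ι) → MvPolynomial (Fin 2) k ⧸ (pointIdeal (p i) ^ m i)) ⧸ LinearMap.range (jets p d m)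

/-- `h¹(X, dH - ∑ mᵢEᵢ)`. -/
noncomputable def h1 (p : ι → Fin 2 → k) (d : ℕ) (m : ι → ℕ) : Cardinal.{u} :=
  Module.rank k (H1 p d m)

end defs

section lemmas

variable {k : Type u} [Field k]

/-- restriction to the graph of `h`. -/
noncomputable def gr (h : Polynomial k) : MvPolynomial (Fin 2) k →ₐ[k] Polynomial k :=
  aeval ![Polynomial.X, h]

noncomputable def ps : Polynomial k →ₐ[k] MvPolynomial (Fin 2) k := Polynomial.aeval (X 0)

/-- equation of the graph of `h`. -/
noncomputable def eqn (h : Polynomial k) : MvPolynomial (Fin 2) k := X 1 - ps h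

lemma gr_X0 (h : Polynomial k) : gr h (X 0) = Polynomial.X := by simp [gr]
lemma gr_X1 (h : Polynomial k) : gr h (X 1) = h := by simp [gr]

lemma gr_ps (h p : Polynomial k) : gr h (ps p) = p := by
  have : ((gr h).comp ps) = AlgHom.id k (Polynomial k) := by
    apply Polynomial.algHom_ext
    simp [ps, gr]
  exact DFunLike.congr_fun this p

lemma gr_eqn (h h' : Polynomial k) : gr h (eqn h') = h - h' := by
  rw [eqn, map_sub, gr_X1, gr_ps]

lemma eqn_dvd_sub (h : Polynomial k) (g : MvPolynomial (Fin 2) k) : eqn h ∣ g - ps (gr h g) := by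
  induction g using MvPolynomial.induction_on with
  | C a =>
    have : ps (gr h (C a)) = (C a : MvPolynomial (Fin 2) k) := by
      rw [gr, aeval_C, ps, Polynomial.algebraMap_eq, Polynomial.aeval_C]; rfl
    rw [this, sub_self]
    exact dvd_zero _
  | add f g hf hg =>
    have : f + g - ps (gr h (f + g)) = (f - ps (gr h f)) + (g - ps (gr h g)) := by
      simp only [map_add]; ring
    rw [this]
    exact dvd_add hf hg
  | mul_X f n hf =>
    have hn : eqn h ∣ X n - ps (gr h (X n)) := by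
      fin_cases n
      · simp only [Fin.zero_eta, gr_X0]
        have : (ps Polynomial.X : MvPolynomial (Fin 2) k) = X 0 := by simp [ps]
        rw [this, sub_self]
        exact dvd_zero _
      · simp only [Fin.mk_one, gr_X1]
        exact dvd_refl _
    have : f * X n - ps (gr h (f * X n)) = X n * (f - ps (gr h f)) + ps (gr h f) * (X n - ps (gr h (X n))) := by
      simp only [map_mul]; ring
    rw [this]
    exact dvd_add (Dvd.dvd.mul_left hf _) (Dvd.dvd.mul_left hn _)

lemma eqn_dvd_iff (h : Polynomial k) (g : MvPolynomial (Fin 2) k) : eqn h ∣ g ↔ gr h g = 0 := by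
  constructor
  · rintro ⟨q, rfl⟩
    rw [map_mul, gr_eqn, sub_self, zero_mul]
  · intro h0
    have := eqn_dvd_sub h g
    rwa [h0, map_zero, sub_zero] at this

lemma eqn_ne (h : Polynomial k) : eqn h ≠ 0 := by
  intro h0
  have := gr_eqn (h + 1) h
  rw [h0, map_zero] at this
  simp at this

lemma eqn_not_unit (h : Polynomial k) : ¬ IsUnit (eqn h) := by
  intro hu
  have := hu.map (gr h)
  rw [gr_eqn, sub_self] at this
  exact not_isUnit_zero this

lemma eqn_prime (h : Polynomial k) : Prime (eqn h) := by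
  refine ⟨eqn_ne h, eqn_not_unit h, ?_⟩
  intro a b hab
  rw [eqn_dvd_iff, map_mul, mul_eq_zero] at hab
  rw [eqn_dvd_iff, eqn_dvd_iff]
  exact hab

/-- Pull back of vanishing orders along a curve. -/
lemma pull (φ : MvPolynomial (Fin 2) k →ₐ[k] Polynomial k) (p : Fin 2 → k) (t : k)
    (h0 : Polynomial.X - Polynomial.C t ∣ φ (X 0 - C (p 0)))
    (h1 : Polynomial.X - Polynomial.C t ∣ φ (X 1 - C (p 1)))
    (n : ℕ) (g : MvPolynomial (Fin 2) k) (hg : g ∈ pointIdeal p ^ n) :
    (Polynomial.X - Polynomial.C t) ^ n ∣ φ g := by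
  have h2 := Ideal.mem_map_of_mem φ.toRingHom hg
  rw [pointIdeal, Ideal.map_pow, Ideal.map_span] at h2
  have h3 : Ideal.span (φ.toRingHom '' {X 0 - C (p 0), X 1 - C (p 1)}) ≤
      Ideal.span {Polynomial.X - Polynomial.C t} := by
    rw [Ideal.span_le]
    rintro _ ⟨f, hf, rfl⟩
    rcases hf with rfl | hf
    · exact Ideal.mem_span_singleton.2 h0
    · rw [Set.mem_singleton_iff] at hf
      subst hf
      exact Ideal.mem_span_singleton.2 h1
  have h4 := Ideal.pow_right_mono h3 n h2
  rw [Ideal.span_singleton_pow] at h4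
  exact Ideal.mem_span_singleton.1 h4

lemma pull_gr (h : Polynomial k) (t : k) (n : ℕ) (g : MvPolynomial (Fin 2) k)
    (hg : g ∈ pointIdeal ![t, h.eval t] ^ n) : (Polynomial.X - Polynomial.C t) ^ n ∣ gr h g := by
  refine pull _ _ t ?_ ?_ n g hg
  · rw [map_sub, gr_X0]
    simp [gr]
  · rw [map_sub, gr_X1]
    have : gr h (C (![t, h.eval t] 1)) = Polynomial.C (h.eval t) := by simp [gr]
    rw [this]
    exact Polynomial.X_sub_C_dvd_sub_C_eval

lemma mem_eval (p : Fin 2 → k) (g : MvPolynomial (Fin 2) k) (h : g ∈ pointIdeal p) : eval p g = 0 := by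
  rw [pointIdeal, Ideal.mem_span_pair] at h
  obtain ⟨a, b, rfl⟩ := h
  simp

lemma eqn_mem (h : Polynomial k) (t : k) : eqn h ∈ pointIdeal ![t, h.eval t] := by
  have h1 : (X 0 - C t : MvPolynomial (Fin 2) k) ∣ ps h - C (h.eval t) := by
    have h2 : Polynomial.X - Polynomial.C t ∣ h - Polynomial.C (h.eval t) := Polynomial.X_sub_C_dvd_sub_C_eval
    have h3 := map_dvd (ps (k := k)) h2
    simpa [ps] using h3
  obtain ⟨q, hq⟩ := h1
  rw [pointIdeal, Ideal.mem_span_pair]
  refine ⟨-q, 1, ?_⟩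
  simp only [Matrix.cons_val_zero, Matrix.cons_val_one]
  rw [eqn]
  linear_combination hq

lemma eqn_not_mem_sq (h : Polynomial k) (t : k) (n : ℕ) (hn : eqn h ∈ pointIdeal ![t, h.eval t] ^ n) : n ≤ 1 := by
  have h1 := pull (aeval ![Polynomial.C t, Polynomial.X]) ![t, h.eval t] (h.eval t) (by simp) (by simp) n _ hn
  have h2 : aeval ![Polynomial.C t, Polynomial.X] (eqn h) = Polynomial.X - Polynomial.C (h.eval t) := by
    have h3 : ((aeval ![Polynomial.C t, Polynomial.X] : MvPolynomial (Fin 2) k →ₐ[k] Polynomial k).comp ps) =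
        Polynomial.aeval (Polynomial.C t) := by
      apply Polynomial.algHom_ext
      simp [ps]
    have h4 := DFunLike.congr_fun h3 h
    rw [AlgHom.comp_apply] at h4
    rw [eqn, map_sub, h4, aeval_X]
    have h5 : (Polynomial.aeval (Polynomial.C t)) h = Polynomial.C (h.eval t) := by
      rw [Polynomial.aeval_def, Polynomial.algebraMap_eq, Polynomial.eval₂_at_apply]
    rw [h5]
    simp
  rw [h2] at h1
  have h6 := Polynomial.natDegree_le_of_dvd h1 (Polynomial.X_sub_C_ne_zero _)
  rw [Polynomial.natDegree_pow, Polynomial.natDegree_X_sub_C] at h6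
  omega

lemma gr_deg (h : Polynomial k) (N : ℕ) (h1 : 1 ≤ N) (hN : h.natDegree ≤ N) (g : MvPolynomial (Fin 2) k) (d : ℕ)
    (hg : g.totalDegree ≤ d) : (gr h g).natDegree ≤ d * N := by
  refine MvPolynomial.aeval_natDegree_le g hg ![Polynomial.X, h] ?_
  intro i
  fin_cases i
  · simpa using h1
  · simpa using hN

lemma eval_gr (h : Polynomial k) (x : k) (g : MvPolynomial (Fin 2) k) :
    (gr h g).eval x = eval ![x, h.eval x] g := by
  induction g using MvPolynomial.induction_on with
  | C a => simp [gr]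
  | add f g hf hg => rw [map_add, Polynomial.eval_add, hf, hg, map_add]
  | mul_X f n hf =>
    rw [map_mul, Polynomial.eval_mul, hf, map_mul, eval_X]
    congr 1
    fin_cases n
    · simp [gr]
    · simp [gr]

lemma one_le_deg (h : Polynomial k) : 1 ≤ (eqn h).totalDegree := by
  by_contra hlt
  have h0 : (eqn h).totalDegree = 0 := by omega
  rw [totalDegree_eq_zero_iff_eq_C] at h0
  have hne : coeff 0 (eqn h) ≠ 0 := by
    intro h1
    rw [h1, map_zero] at h0
    exact eqn_ne h h0
  apply eqn_not_unit h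
  rw [h0]
  exact (IsUnit.mk0 _ hne).map C

/-- the line `y = a x + b` -/
noncomputable def lin (a b : k) : Polynomial k := Polynomial.C a * Polynomial.X + Polynomial.C b

lemma lin_deg (a b : k) : (lin a b).natDegree ≤ 1 := by
  rw [lin]; compute_degree

lemma lin_eval (a b x : k) : (lin a b).eval x = a * x + b := by simp [lin]

/-- the quartic `y = x⁴ - 53x²`. -/
noncomputable def fD : Polynomial k := Polynomial.X ^ 4 - Polynomial.C 53 * Polynomial.X ^ 2

lemma fD_eval (x : k) : (fD : Polynomial k).eval x = x ^ 4 - 53 * x ^ 2 := by simp [fD]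

lemma fD_deg : (fD : Polynomial k).natDegree = 4 := by
  rw [fD]; compute_degree!

lemma four_le_deg : 4 ≤ (eqn (fD : Polynomial k)).totalDegree := by
  have h1 := gr_deg (lin (0 : k) 0) 1 le_rfl (lin_deg 0 0) (eqn fD) _ le_rfl
  rw [gr_eqn] at h1
  have h2 : (lin (0 : k) 0 - fD).natDegree = 4 := by
    have : lin (0 : k) 0 = 0 := by simp [lin]
    rw [this, zero_sub, Polynomial.natDegree_neg, fD_deg]
  rw [h2] at h1
  omega

lemma deg_le_four : (eqn (fD : Polynomial k)).totalDegree ≤ 4 := by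
  have h : eqn (fD : Polynomial k) = X 1 - (X 0 ^ 4 - C 53 * X 0 ^ 2) := by
    simp [eqn, ps, fD]
  rw [h]
  refine (totalDegree_sub _ _).trans (max_le (by simp) ?_)
  refine (totalDegree_sub _ _).trans (max_le (by simp) ?_)
  refine (totalDegree_mul _ _).trans ?_
  simp

lemma line_key (a b : k) (u : Fin 4 → k) (hu : Function.Injective u)
    (hD : fD - lin a b = ∏ i, (Polynomial.X - Polynomial.C (u i))) (m : ℕ)
    (g : MvPolynomial (Fin 2) k) (hg : g.totalDegree ≤ 4 * m)
    (hmem : ∀ i, g ∈ pointIdeal ![u i, (lin a b).eval (u i)] ^ m) :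
    ∃ c : k, gr (lin a b) g = Polynomial.C c * (gr (lin a b) (eqn fD)) ^ m := by
  have hdiv : ∏ i, (Polynomial.X - Polynomial.C (u i)) ^ m ∣ gr (lin a b) g := by
    refine Finset.prod_dvd_of_coprime ?_ (fun i _ => pull_gr _ _ _ _ (hmem i))
    intro i _ j _ hij
    exact (Polynomial.pairwise_coprime_X_sub_C hu hij).pow
  rw [Finset.prod_pow, ← hD] at hdiv
  obtain ⟨q, hq⟩ := hdiv
  have hDdeg : (fD - lin a b).natDegree = 4 := by
    rw [hD, Polynomial.natDegree_prod_of_monic _ _ (fun i _ => Polynomial.monic_X_sub_C _)]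
    simp
  have hmon : (fD - lin a b).Monic := by
    rw [hD]; exact Polynomial.monic_prod_of_monic _ _ (fun i _ => Polynomial.monic_X_sub_C _)
  have hdeg := gr_deg (lin a b) 1 le_rfl (lin_deg a b) g _ hg
  have hneg : (gr (lin a b) (eqn fD)) = -(fD - lin a b) := by rw [gr_eqn]; ring
  by_cases hq0 : q = 0
  · refine ⟨0, ?_⟩
    rw [hq, hq0]; simp
  · rw [hq, (hmon.pow m).natDegree_mul' hq0, hmon.natDegree_pow, hDdeg] at hdeg
    have hq1 : q.natDegree = 0 := by omega
    rw [Polynomial.eq_C_of_natDegree_eq_zero hq1] at hq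
    refine ⟨q.coeff 0 * (-1) ^ m, ?_⟩
    rw [hq, hneg, neg_pow (fD - lin a b) m, map_mul, map_pow, map_neg, map_one]
    have : ((-1 : Polynomial k) ^ m) * (-1) ^ m = 1 := by
      rw [← mul_pow]; simp
    linear_combination (-(fD - lin a b) ^ m * Polynomial.C (q.coeff 0)) * this

variable [CharZero k]

/-- parameters of the 15 points on the quartic. -/
def tt : Fin 15 → ℤ := ![-8, -1, 4, 5, -7, -2, 2, 7, -5, -4, 1, 8, 0, 3, -3]

variable (k) in
noncomputable def pp (i : Fin 15) : Fin 2 → k := ![(tt i : k), (fD : Polynomial k).eval (tt i : k)]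

omit [CharZero k] in
variable (k) in
lemma pp_eq (i : Fin 15) : pp k i = ![(tt i : k), (tt i : k) ^ 4 - 53 * (tt i : k) ^ 2] := by
  rw [pp, fD_eval]

variable (k) in
lemma pp_inj : Function.Injective (pp k) := by
  intro i j h
  have h0 := congrFun h 0
  simp only [pp, Matrix.cons_val_zero] at h0
  have h1 : tt i = tt j := by exact_mod_cast h0
  have key : ∀ i j, tt i = tt j → i = j := by decide
  exact key i j h1

def u0 : Fin 4 → ℤ := ![-8, -1, 4, 5]
def u1 : Fin 4 → ℤ := ![-7, -2, 2, 7]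
def u2 : Fin 4 → ℤ := ![-5, -4, 1, 8]

omit [CharZero k] in
lemma hD0 : fD - lin (-108 : k) (-160) = ∏ i, (Polynomial.X - Polynomial.C ((u0 i : ℤ) : k)) := by
  have h53 : Polynomial.C (53 : k) = 53 := map_ofNat _ 53
  have h108 : Polynomial.C (108 : k) = 108 := map_ofNat _ 108
  have h160 : Polynomial.C (160 : k) = 160 := map_ofNat _ 160
  have h196 : Polynomial.C (196 : k) = 196 := map_ofNat _ 196
  simp [Fin.prod_univ_four, u0, fD, lin, h53, h108, h160, h196]
  ring

omit [CharZero k] in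
lemma hD1 : fD - lin (0 : k) (-196) = ∏ i, (Polynomial.X - Polynomial.C ((u1 i : ℤ) : k)) := by
  have h53 : Polynomial.C (53 : k) = 53 := map_ofNat _ 53
  have h108 : Polynomial.C (108 : k) = 108 := map_ofNat _ 108
  have h160 : Polynomial.C (160 : k) = 160 := map_ofNat _ 160
  have h196 : Polynomial.C (196 : k) = 196 := map_ofNat _ 196
  simp [Fin.prod_univ_four, u1, fD, lin, h53, h108, h160, h196]
  ring

omit [CharZero k] in
lemma hD2 : fD - lin (108 : k) (-160) = ∏ i, (Polynomial.X - Polynomial.C ((u2 i : ℤ) : k)) := by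
  have h53 : Polynomial.C (53 : k) = 53 := map_ofNat _ 53
  have h108 : Polynomial.C (108 : k) = 108 := map_ofNat _ 108
  have h160 : Polynomial.C (160 : k) = 160 := map_ofNat _ 160
  have h196 : Polynomial.C (196 : k) = 196 := map_ofNat _ 196
  simp [Fin.prod_univ_four, u2, fD, lin, h53, h108, h160, h196]
  ring

omit [CharZero k] in
lemma line_pt (a b : k) (u : Fin 4 → k)
    (hD : fD - lin a b = ∏ i, (Polynomial.X - Polynomial.C (u i))) (i : Fin 4) :
    (lin a b).eval (u i) = (fD : Polynomial k).eval (u i) := by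
  have := congrArg (Polynomial.eval (u i)) hD
  rw [Polynomial.eval_sub, Polynomial.eval_prod, Finset.prod_eq_zero (Finset.mem_univ i) (by simp)] at this
  exact (sub_eq_zero.1 this).symm

def e0 : Fin 4 → Fin 15 := ![0, 1, 2, 3]
def e1 : Fin 4 → Fin 15 := ![4, 5, 6, 7]
def e2 : Fin 4 → Fin 15 := ![8, 9, 10, 11]

lemma te0 : ∀ i, tt (e0 i) = u0 i := by decide
lemma te1 : ∀ i, tt (e1 i) = u1 i := by decide
lemma te2 : ∀ i, tt (e2 i) = u2 i := by decide

lemma key0 (m : ℕ) (g : MvPolynomial (Fin 2) k) (hg : g.totalDegree ≤ 4 * m)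
    (hmem : ∀ i, g ∈ pointIdeal (pp k (e0 i)) ^ m) :
    ∃ c : k, gr (lin (-108) (-160)) g = Polynomial.C c * (gr (lin (-108) (-160)) (eqn fD)) ^ m := by
  refine line_key _ _ _ ?_ hD0 m g hg ?_
  · intro i j h
    have h0 : ((u0 i : ℤ) : k) = ((u0 j : ℤ) : k) := h
    have h1 : u0 i = u0 j := by exact_mod_cast h0
    have key : ∀ i j, u0 i = u0 j → i = j := by decide
    exact key i j h1
  · intro i
    have := hmem i
    rw [pp, te0, ← line_pt _ _ _ hD0] at this
    exact this

lemma key1 (m : ℕ) (g : MvPolynomial (Fin 2) k) (hg : g.totalDegree ≤ 4 * m)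
    (hmem : ∀ i, g ∈ pointIdeal (pp k (e1 i)) ^ m) :
    ∃ c : k, gr (lin 0 (-196)) g = Polynomial.C c * (gr (lin 0 (-196)) (eqn fD)) ^ m := by
  refine line_key _ _ _ ?_ hD1 m g hg ?_
  · intro i j h
    have h0 : ((u1 i : ℤ) : k) = ((u1 j : ℤ) : k) := h
    have h1 : u1 i = u1 j := by exact_mod_cast h0
    have key : ∀ i j, u1 i = u1 j → i = j := by decide
    exact key i j h1
  · intro i
    have := hmem i
    rw [pp, te1, ← line_pt _ _ _ hD1] at this
    exact this

lemma key2 (m : ℕ) (g : MvPolynomial (Fin 2) k) (hg : g.totalDegree ≤ 4 * m)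
    (hmem : ∀ i, g ∈ pointIdeal (pp k (e2 i)) ^ m) :
    ∃ c : k, gr (lin 108 (-160)) g = Polynomial.C c * (gr (lin 108 (-160)) (eqn fD)) ^ m := by
  refine line_key _ _ _ ?_ hD2 m g hg ?_
  · intro i j h
    have h0 : ((u2 i : ℤ) : k) = ((u2 j : ℤ) : k) := h
    have h1 : u2 i = u2 j := by exact_mod_cast h0
    have key : ∀ i j, u2 i = u2 j → i = j := by decide
    exact key i j h1
  · intro i
    have := hmem i
    rw [pp, te2, ← line_pt _ _ _ hD2] at this
    exact this

/-- value of the quartic at a point of the plane -/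
noncomputable def val (x y : k) (g : MvPolynomial (Fin 2) k) : k := eval ![x, y] g

omit [CharZero k] in
lemma val_key (a b x y c : k) (m : ℕ) (g : MvPolynomial (Fin 2) k) (hy : a * x + b = y)
    (h : gr (lin a b) g = Polynomial.C c * (gr (lin a b) (eqn fD)) ^ m) :
    eval ![x, y] g = c * (y - (x ^ 4 - 53 * x ^ 2)) ^ m := by
  have h1 := congrArg (Polynomial.eval x) h
  rw [eval_gr, lin_eval, hy, Polynomial.eval_mul, Polynomial.eval_pow, Polynomial.eval_C, gr_eqn,
    Polynomial.eval_sub, lin_eval, hy, fD_eval] at h1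
  exact h1

lemma n01 : ((-196 : k) - ((1/3) ^ 4 - 53 * (1/3) ^ 2)) ≠ 0 := by norm_num
lemma n12 : ((-196 : k) - ((-1/3) ^ 4 - 53 * (-1/3) ^ 2)) ≠ 0 := by norm_num
lemma n02 : ((-160 : k) - (0 ^ 4 - 53 * 0 ^ 2)) ≠ 0 := by norm_num

/-- the three constants agree -/
lemma consts (m : ℕ) (c0 c1 c2 : k) (T0 g : MvPolynomial (Fin 2) k)
    (h0 : gr (lin (-108) (-160)) (g - T0) = Polynomial.C c0 * (gr (lin (-108) (-160)) (eqn fD)) ^ m)
    (h1 : gr (lin 0 (-196)) g = Polynomial.C c1 * (gr (lin 0 (-196)) (eqn fD)) ^ m)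
    (h2 : gr (lin 108 (-160)) g = Polynomial.C c2 * (gr (lin 108 (-160)) (eqn fD)) ^ m)
    (hT : eval ![(1/3 : k), -196] T0 = 0) :
    c0 = c1 ∧ c1 = c2 ∧ eval ![(0 : k), -160] T0 = 0 := by
  have a0 := val_key (-108) (-160) (1/3) (-196) c0 m _ (by norm_num) h0
  have a1 := val_key 0 (-196) (1/3) (-196) c1 m _ (by norm_num) h1
  have b1 := val_key 0 (-196) (-1/3) (-196) c1 m _ (by norm_num) h1
  have b2 := val_key 108 (-160) (-1/3) (-196) c2 m _ (by norm_num) h2
  have d0 := val_key (-108) (-160) 0 (-160) c0 m _ (by norm_num) h0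
  have d2 := val_key 108 (-160) 0 (-160) c2 m _ (by norm_num) h2
  rw [map_sub, hT, sub_zero, a1] at a0
  have e01 : c1 = c0 := mul_right_cancel₀ (pow_ne_zero m n01) a0
  rw [b1] at b2
  have e12 : c1 = c2 := mul_right_cancel₀ (pow_ne_zero m n12) b2
  refine ⟨e01.symm, e12, ?_⟩
  rw [map_sub, d2] at d0
  rw [← e12, e01] at d0
  linear_combination -d0

lemma lin_ne (a b a' b' : k) (h : a ≠ a' ∨ b ≠ b') : lin a b - lin a' b' ≠ 0 := by
  intro h0
  have h1 := congrArg (Polynomial.eval 0) h0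
  have h2 := congrArg (Polynomial.eval 1) h0
  rw [Polynomial.eval_sub, lin_eval, lin_eval, Polynomial.eval_zero] at h1 h2
  have hb : b = b' := by linear_combination h1
  have ha : a = a' := by linear_combination h2 - h1
  rcases h with h | h
  · exact h ha
  · exact h hb

omit [CharZero k] in
lemma eval_eqn (h : Polynomial k) (x y : k) : eval ![x, y] (eqn h) = y - h.eval x := by
  have h3 : ((aeval ![x, y] : MvPolynomial (Fin 2) k →ₐ[k] k).comp ps) = Polynomial.aeval x := by
    apply Polynomial.algHom_ext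
    simp [ps]
  have h4 := DFunLike.congr_fun h3 h
  rw [AlgHom.comp_apply] at h4
  have h5 : eval ![x, y] (ps h) = h.eval x := by
    rw [← coe_aeval_eq_eval]
    simpa using h4
  rw [eqn, map_sub, h5]
  simp

/-- the quartic is the only quartic through the 15 points. -/
lemma unique (g : MvPolynomial (Fin 2) k) (hg : g.totalDegree ≤ 4)
    (hmem : ∀ i, g ∈ pointIdeal (pp k i)) : ∃ c : k, g = C c * eqn fD := by
  obtain ⟨c0, h0⟩ := key0 1 g (by omega) (fun i => by rw [pow_one]; exact hmem _)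
  obtain ⟨c1, h1⟩ := key1 1 g (by omega) (fun i => by rw [pow_one]; exact hmem _)
  obtain ⟨c2, h2⟩ := key2 1 g (by omega) (fun i => by rw [pow_one]; exact hmem _)
  obtain ⟨e01, e12, -⟩ := consts 1 c0 c1 c2 0 g (by rw [sub_zero]; exact h0) h1 h2 (by simp)
  subst e01
  subst e12
  refine ⟨c0, ?_⟩
  rw [← sub_eq_zero]
  by_contra hne
  set G := g - C c0 * eqn fD with hG
  have hGdeg : G.totalDegree ≤ 4 := by
    refine (totalDegree_sub _ _).trans (max_le hg ?_)
    refine (totalDegree_mul _ _).trans ?_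
    rw [totalDegree_C, zero_add]
    exact deg_le_four
  have hC : ∀ h : Polynomial k, gr h (C c0) = Polynomial.C c0 := by intro h; simp [gr]
  have g0 : gr (lin (-108 : k) (-160)) G = 0 := by
    rw [hG, map_sub, map_mul, h0, hC, pow_one, sub_self]
  have g1 : gr (lin (0 : k) (-196)) G = 0 := by
    rw [hG, map_sub, map_mul, h1, hC, pow_one, sub_self]
  have g2 : gr (lin (108 : k) (-160)) G = 0 := by
    rw [hG, map_sub, map_mul, h2, hC, pow_one, sub_self]
  obtain ⟨G1, hG1⟩ := (eqn_dvd_iff _ _).2 g0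
  rw [hG1, map_mul, gr_eqn] at g1
  have g1' := (mul_eq_zero.1 g1).resolve_left (lin_ne _ _ _ _ (by norm_num))
  obtain ⟨G2, hG2⟩ := (eqn_dvd_iff _ _).2 g1'
  rw [hG1, hG2, map_mul, map_mul, gr_eqn, gr_eqn] at g2
  have g2' := (mul_eq_zero.1 ((mul_eq_zero.1 g2).resolve_left (lin_ne _ _ _ _ (by norm_num)))).resolve_left
    (lin_ne _ _ _ _ (by norm_num))
  obtain ⟨h, hh⟩ := (eqn_dvd_iff _ _).2 g2'
  have hprod : G = eqn (lin (-108) (-160)) * (eqn (lin 0 (-196)) * (eqn (lin 108 (-160)) * h)) := by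
    rw [hG1, hG2, hh]
  have hh0 : h ≠ 0 := by
    rintro rfl
    apply hne
    rw [hprod]; ring
  have hdeg : h.totalDegree ≤ 1 := by
    have d0 := one_le_deg (lin (-108 : k) (-160))
    have d1 := one_le_deg (lin (0 : k) (-196))
    have d2 := one_le_deg (lin (108 : k) (-160))
    rw [hprod, totalDegree_mul_of_isDomain (eqn_ne _) (mul_ne_zero (eqn_ne _) (mul_ne_zero (eqn_ne _) hh0)),
      totalDegree_mul_of_isDomain (eqn_ne _) (mul_ne_zero (eqn_ne _) hh0),
      totalDegree_mul_of_isDomain (eqn_ne _) hh0] at hGdeg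
    omega
  have hGq : ∀ i, eval (pp k i) G = 0 := by
    intro i
    have hz : eval (pp k i) (eqn fD) = 0 := mem_eval _ _ (eqn_mem _ _)
    rw [hG, map_sub, map_mul, mem_eval _ _ (hmem i), hz]
    simp
  have q1 : eval ![(0 : k), 0] h = 0 := by
    have := hGq 12
    rw [pp_eq, show tt 12 = 0 from rfl, hprod, map_mul, map_mul, map_mul, eval_eqn, eval_eqn, eval_eqn,
      lin_eval, lin_eval, lin_eval] at this
    norm_num at this
    exact this
  have q2 : eval ![(3 : k), -396] h = 0 := by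
    have := hGq 13
    rw [pp_eq, show tt 13 = 3 from rfl, hprod, map_mul, map_mul, map_mul, eval_eqn, eval_eqn, eval_eqn,
      lin_eval, lin_eval, lin_eval] at this
    norm_num at this
    exact this
  have q3 : eval ![(-3 : k), -396] h = 0 := by
    have := hGq 14
    rw [pp_eq, show tt 14 = -3 from rfl, hprod, map_mul, map_mul, map_mul, eval_eqn, eval_eqn, eval_eqn,
      lin_eval, lin_eval, lin_eval] at this
    norm_num at this
    exact this
  have hr : gr (lin (0 : k) (-396)) h = 0 := by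
    classical
    by_contra hr
    have r2 : (gr (lin (0 : k) (-396)) h).eval 3 = 0 := by
      rw [eval_gr, lin_eval]; norm_num; exact q2
    have r3 : (gr (lin (0 : k) (-396)) h).eval (-3) = 0 := by
      rw [eval_gr, lin_eval]; norm_num; exact q3
    have hd := gr_deg (lin (0 : k) (-396)) 1 le_rfl (lin_deg _ _) h 1 hdeg
    have hcard := Polynomial.card_roots' (gr (lin (0 : k) (-396)) h)
    have hsub : ({3, -3} : Finset k) ⊆ (gr (lin (0 : k) (-396)) h).roots.toFinset := by
      intro x hx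
      rw [Finset.mem_insert, Finset.mem_singleton] at hx
      rw [Multiset.mem_toFinset, Polynomial.mem_roots hr]
      rcases hx with rfl | rfl
      · exact r2
      · exact r3
    have h1 := Finset.card_le_card hsub
    have h2 := Multiset.toFinset_card_le (gr (lin (0 : k) (-396)) h).roots
    rw [Finset.card_pair (by norm_num)] at h1
    omega
  obtain ⟨h', hh'⟩ := (eqn_dvd_iff _ _).2 hr
  have hh'0 : h' ≠ 0 := by
    rintro rfl
    exact hh0 (by rw [hh', mul_zero])
  have hdeg' : h'.totalDegree = 0 := by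
    have d0 := one_le_deg (lin (0 : k) (-396))
    rw [hh', totalDegree_mul_of_isDomain (eqn_ne _) hh'0] at hdeg
    omega
  rw [totalDegree_eq_zero_iff_eq_C] at hdeg'
  rw [hh', map_mul, eval_eqn, lin_eval, hdeg', eval_C] at q1
  have hc : coeff 0 h' = 0 := by
    have : (396 : k) ≠ 0 := by norm_num
    have h5 : (396 : k) * coeff 0 h' = 0 := by linear_combination q1
    exact (mul_eq_zero.1 h5).resolve_left this
  rw [hc, map_zero] at hdeg'
  exact hh'0 hdeg'

lemma fD_irred : Irreducible (eqn (fD : Polynomial k)) := (eqn_prime _).irreducible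

omit [CharZero k] in
variable (k) in
lemma fD_mem (i : Fin 15) : eqn (fD : Polynomial k) ∈ pointIdeal (pp k i) := eqn_mem _ _

omit [CharZero k] in
variable (k) in
lemma fD_mult (i : Fin 15) (n : ℕ) (hn : eqn (fD : Polynomial k) ∈ pointIdeal (pp k i) ^ n) : n ≤ 1 :=
  eqn_not_mem_sq _ _ _ hn

/-- the points of the example, as a product of linear factors to powers `μ`. -/
lemma prod_dvd (F : MvPolynomial (Fin 2) k) (μ : Fin 15 → ℕ)
    (h : ∀ i, F ∈ pointIdeal (pp k i) ^ μ i) :
    ∏ i, (Polynomial.X - Polynomial.C (tt i : k)) ^ μ i ∣ gr fD F := by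
  refine Finset.prod_dvd_of_coprime ?_ (fun i _ => pull_gr _ _ _ _ (h i))
  intro i _ j _ hij
  have hinj : Function.Injective (fun i : Fin 15 => (tt i : k)) := by
    intro i j h
    have h0 : (tt i : k) = (tt j : k) := h
    have h1 : tt i = tt j := by exact_mod_cast h0
    have key : ∀ i j, tt i = tt j → i = j := by decide
    exact key i j h1
  exact (Polynomial.pairwise_coprime_X_sub_C hinj hij).pow

omit [CharZero k] in
lemma C_unit_mem (q : Fin 2 → k) (F : MvPolynomial (Fin 2) k) (hF : IsUnit F) (n : ℕ)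
    (h : F ∈ pointIdeal q ^ n) : n = 0 := by
  by_contra hn
  have h1 : F ∈ pointIdeal q := by
    have := Ideal.pow_le_pow_right (I := pointIdeal q) (Nat.one_le_iff_ne_zero.2 hn) h
    rwa [pow_one] at this
  have h2 := mem_eval _ _ h1
  have h3 := hF.map (eval q)
  rw [h2] at h3
  exact not_isUnit_zero h3

end lemmas

/-- **Negative answer to Q1.**  Over every algebraically closed field of characteristic zero there are
15 distinct points such that `L = 4H - E₁ - ⋯ - E₁₅` is effective and nef, does not satisfy (B), and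
`h¹(mL) > 0` for every `m ≥ 1`. -/
theorem result (k : Type u) [Field k] [IsAlgClosed k] [CharZero k] :
    ∃ p : Fin 15 → Fin 2 → k, Function.Injective p ∧
      Effective p 4 (fun _ => 1) ∧ Nef p 4 (fun _ => 1) ∧ ¬ CondB p 4 (fun _ => 1) ∧
      ∀ m : ℕ, 1 ≤ m → 0 < h1 p (m * 4) (fun _ => m * 1) := by
  refine ⟨pp k, pp_inj k, ?_, ⟨?_, ?_, ?_⟩, ?_, ?_⟩
  · -- effective
    refine ⟨eqn fD, eqn_ne _, by exact_mod_cast deg_le_four, fun i => ?_⟩
    rw [show (1 : ℤ).toNat = 1 from rfl, pow_one]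
    exact fD_mem k i
  · intro i; norm_num
  · norm_num
  · -- nef
    intro F μ hF hμ
    have hmem : ∀ i, F ∈ pointIdeal (pp k i) ^ μ i := fun i => (hμ i).1
    have hle : ∑ i, μ i ≤ 4 * F.totalDegree := by
      by_cases h0 : gr fD F = 0
      · have hdvd : eqn fD ∣ F := (eqn_dvd_iff _ _).2 h0
        have hass : Associated (eqn fD) F := fD_irred.associated_of_dvd hF hdvd
        have hdeg : 4 ≤ F.totalDegree := by
          obtain ⟨u, hu⟩ := hass
          rw [← hu, totalDegree_mul_of_isDomain (eqn_ne _) u.ne_zero]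
          have := four_le_deg (k := k)
          omega
        have hμ1 : ∀ i, μ i ≤ 1 := by
          intro i
          refine fD_mult k i (μ i) ?_
          obtain ⟨u, hu⟩ := hass.symm
          rw [← hu]
          exact Ideal.mul_mem_right _ _ (hmem i)
        have hsum : ∑ i, μ i ≤ ∑ i : Fin 15, 1 := Finset.sum_le_sum (fun i _ => hμ1 i)
        simp at hsum
        omega
      · have h1 := prod_dvd F μ hmem
        have h2 := Polynomial.natDegree_le_of_dvd h1 h0
        rw [Polynomial.natDegree_prod_of_monic _ _ (fun i _ => (Polynomial.monic_X_sub_C _).pow _)] at h2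
        simp only [Polynomial.natDegree_pow, Polynomial.natDegree_X_sub_C, mul_one] at h2
        have h3 := gr_deg (fD : Polynomial k) 4 (by norm_num) (le_of_eq fD_deg) F _ le_rfl
        omega
    rw [inter]
    have hle' : ((∑ i, μ i : ℕ) : ℤ) ≤ 4 * (F.totalDegree : ℤ) := by exact_mod_cast hle
    push_cast at hle'
    simp only [one_mul]
    linarith
  · -- condition (B) fails
    rintro ⟨e, n, hne, ⟨F, hF0, hFd, hF⟩, ⟨G, hG0, hGd, hG⟩, -, hint⟩
    have hFG : ∀ i, F * G ∈ pointIdeal (pp k i) := by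
      intro i
      rcases le_or_gt 1 (n i) with h | h
      · have h1 : F ∈ pointIdeal (pp k i) := by
          have := Ideal.pow_le_pow_right (I := pointIdeal (pp k i)) (show 1 ≤ (n i).toNat by omega) (hF i)
          rwa [pow_one] at this
        exact Ideal.mul_mem_right _ _ h1
      · have h1 : G ∈ pointIdeal (pp k i) := by
          have := Ideal.pow_le_pow_right (I := pointIdeal (pp k i)) (show 1 ≤ (1 - n i).toNat by omega) (hG i)
          rwa [pow_one] at this
        exact Ideal.mul_mem_left _ _ h1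
    have hdeg := totalDegree_mul_of_isDomain hF0 hG0
    obtain ⟨c, hc⟩ := unique (F * G) (by omega) hFG
    have hc0 : c ≠ 0 := by
      rintro rfl
      rw [map_zero, zero_mul] at hc
      exact (mul_ne_zero hF0 hG0) hc
    have hirr : Irreducible (F * G) := by
      rw [hc]
      exact (irreducible_isUnit_mul ((IsUnit.mk0 c hc0).map C)).2 fD_irred
    have h4 : 4 ≤ (F * G).totalDegree := by
      rw [hc, totalDegree_mul_of_isDomain (by simpa using hc0) (eqn_ne _)]
      have := four_le_deg (k := k)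
      omega
    have hD : ∀ i, ∀ N : ℕ, F * G ∈ pointIdeal (pp k i) ^ N → N ≤ 1 := by
      intro i N hN
      refine fD_mult k i N ?_
      have : eqn fD = C c⁻¹ * (F * G) := by
        rw [hc, ← mul_assoc, ← map_mul, inv_mul_cancel₀ hc0, map_one, one_mul]
      rw [this]
      exact Ideal.mul_mem_left _ _ hN
    rw [inter] at hint
    rcases hirr.isUnit_or_isUnit rfl with hu | hu
    · -- `F` is a unit
      have hn : ∀ i, n i ≤ 0 := by
        intro i
        have := C_unit_mem _ F hu _ (hF i)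
        omega
      have hFt : 0 = F.totalDegree := by
        obtain ⟨u, rfl⟩ := hu
        have h5 := totalDegree_mul_of_isDomain (f := (u : MvPolynomial (Fin 2) k)) (g := ((u⁻¹ : (MvPolynomial (Fin 2) k)ˣ) : MvPolynomial (Fin 2) k)) u.ne_zero (Units.ne_zero _)
        rw [Units.mul_inv, totalDegree_one] at h5
        omega
      have he : e = 0 := by omega
      have hsum : ∑ i, n i = 0 := by
        rw [he] at hint
        simp only [one_mul] at hint
        linarith
      have hz : ∀ i ∈ (Finset.univ : Finset (Fin 15)), n i = 0 :=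
        (Finset.sum_eq_zero_iff_of_nonpos (fun i _ => hn i)).1 hsum
      exact hne ⟨he, funext (fun i => hz i (Finset.mem_univ i))⟩
    · -- `G` is a unit
      have hn : ∀ i, 1 ≤ n i := by
        intro i
        have h6 : ((1 : ℤ) - n i).toNat = 0 := C_unit_mem _ G hu _ (hG i)
        omega
      have hGt : 0 = G.totalDegree := by
        obtain ⟨u, rfl⟩ := hu
        have h5 := totalDegree_mul_of_isDomain (f := (u : MvPolynomial (Fin 2) k)) (g := ((u⁻¹ : (MvPolynomial (Fin 2) k)ˣ) : MvPolynomial (Fin 2) k)) u.ne_zero (Units.ne_zero _)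
        rw [Units.mul_inv, totalDegree_one] at h5
        omega
      have he : e = 4 := by omega
      have hn1 : ∀ i, n i ≤ 1 := by
        intro i
        have := hD i (n i).toNat (Ideal.mul_mem_right _ _ (hF i))
        omega
      have hsum : ∑ i, n i = 15 := by
        have : ∀ i, n i = 1 := fun i => le_antisymm (hn1 i) (hn i)
        simp [this]
      rw [he] at hint
      simp only [one_mul] at hint
      rw [hsum] at hint
      norm_num at hint
  · -- speciality
    intro m hm
    rw [h1, rank_pos_iff_nontrivial, Submodule.Quotient.nontrivial_iff]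
    intro htop
    rw [LinearMap.range_eq_top] at htop
    obtain ⟨g, hg⟩ := htop (fun i => if i.val < 4 then
      Ideal.Quotient.mk (pointIdeal (pp k i) ^ (m * 1)) (X 0 - C (1/3)) else 0)
    have hdeg : (g : MvPolynomial (Fin 2) k).totalDegree ≤ m * 4 := (mem_restrictTotalDegree _ _ _).1 g.2
    have hval : ∀ i : Fin 15, Ideal.Quotient.mk (pointIdeal (pp k i) ^ (m * 1)) (g : MvPolynomial (Fin 2) k) =
        if i.val < 4 then Ideal.Quotient.mk (pointIdeal (pp k i) ^ (m * 1)) (X 0 - C (1/3)) else 0 :=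
      fun i => congrFun hg i
    have hlow : ∀ i : Fin 15, i.val < 4 → (g : MvPolynomial (Fin 2) k) - (X 0 - C (1/3)) ∈ pointIdeal (pp k i) ^ m := by
      intro i hi
      have := hval i
      rw [if_pos hi, Ideal.Quotient.eq, mul_one] at this
      exact this
    have hhigh : ∀ i : Fin 15, ¬ i.val < 4 → (g : MvPolynomial (Fin 2) k) ∈ pointIdeal (pp k i) ^ m := by
      intro i hi
      have := hval i
      rw [if_neg hi, Ideal.Quotient.eq_zero_iff_mem, mul_one] at this
      exact this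
    have hTdeg : ((g : MvPolynomial (Fin 2) k) - (X 0 - C (1/3))).totalDegree ≤ 4 * m := by
      refine (totalDegree_sub _ _).trans (max_le (by omega) ?_)
      refine (totalDegree_sub _ _).trans (max_le ?_ ?_)
      · simp; omega
      · rw [totalDegree_C]; omega
    have l0 : ∀ i, (e0 i).val < 4 := by decide
    have l1 : ∀ i, ¬ (e1 i).val < 4 := by decide
    have l2 : ∀ i, ¬ (e2 i).val < 4 := by decide
    obtain ⟨c0, h0⟩ := key0 m _ hTdeg (fun i => hlow _ (l0 i))
    obtain ⟨c1, h1⟩ := key1 m (g : MvPolynomial (Fin 2) k) (by omega) (fun i => hhigh _ (l1 i))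
    obtain ⟨c2, h2⟩ := key2 m (g : MvPolynomial (Fin 2) k) (by omega) (fun i => hhigh _ (l2 i))
    obtain ⟨-, -, hfin⟩ := consts m c0 c1 c2 _ _ h0 h1 h2 (by simp)
    simp at hfin

end Pool.Agent.Results.MP_fa7d23_ag.NoMultiple
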